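import Pool.Agent.R191.Met.Disc

/-!
# Adapted metrics for sectionally volume-expanding partially hyperbolic sets

Let `M` be a smooth manifold (Hausdorff and `σ`-compact; modelled on the finite-dimensional space `E`
through the model with corners `I`), `f` a `C¹` diffeomorphism of `M` and `Λ` a compact invariant set with a
partially hyperbolic splitting `E ⊕ F` such that `E` is uniformly contracted and all `k`-subspaces of `F`
are volume-expanding. Then there is a smooth Riemannian metric on `M` in which the volume expansion of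
`F`, and also the contraction of `E` and the domination, hold with constant `1`.

The norms `gnorm` (of a tangent vector), `gvol` (of an exterior product of tangent vectors) and the
notion `ContSplitting` of a continuous splitting are defined in `Pool/Agent/R191/Met/Defs.lean`.

The proof starts from a metric for which `E` and `F` are orthogonal over `Λ` and replaces it `m` times by
the fibrewise geometric mean of itself and its pullback by `f^(2^j)`, for `j = m - 1, ..., 0`. The key
point is that the geometric mean halves the logarithmic distances between volumes.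
-/

set_option autoImplicit false

open Set Filter Topology Function Bundle Manifold
open scoped ContDiff
open Pool.Agent.R191.Met

namespace Pool.Agent.Results.MP_3d2465_an.AdaptedMetric

variable {E : Type*} [NormedAddCommGroup E] [NormedSpace ℝ E]
  {H : Type*} [TopologicalSpace H] {I : ModelWithCorners ℝ E H}
  {M : Type*} [TopologicalSpace M] [ChartedSpace H M] [IsManifold I ∞ M]

/-- `Λ` is a compact `f`-invariant set with a partially hyperbolic splitting `T_Λ M = Es ⊕ Fs` (continuous,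
`Df`-invariant and dominated) such that `Es` is uniformly contracted and all `k`-subspaces of `Fs` are
volume-expanding. Norms are those of the Riemannian metric `g₀`. The domination
`‖Dfⁿ|E_x‖ ‖Df⁻ⁿ|F_{fⁿ x}‖ ≤ K μⁿ` is written out for vectors `v ∈ E_x` and `w ∈ F_x`. -/
structure IsVolumeExpandingSet (g₀ : ContMDiffRiemannianMetric I ∞ E (fun x : M => TangentSpace I x))
    (f : M ≃ₘ^1⟮I, I⟯ M) (Λ : Set M) (Es Fs : ∀ x : M, Submodule ℝ (TangentSpace I x)) (k : ℕ) :
    Prop where
  isCompact : IsCompact Λ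
  invariant : f '' Λ = Λ
  splitting : ContSplitting Λ Es Fs
  invariant_E : ∀ x ∈ Λ, (Es x).map (mfderiv I I f x).toLinearMap = Es (f x)
  invariant_F : ∀ x ∈ Λ, (Fs x).map (mfderiv I I f x).toLinearMap = Fs (f x)
  dominated : ∃ K μ : ℝ, 0 < K ∧ 0 < μ ∧ μ < 1 ∧ ∀ x ∈ Λ, ∀ n : ℕ, ∀ v ∈ Es x, ∀ w ∈ Fs x,
    gnorm g₀.inner (f^[n] x) (mfderiv I I f^[n] x v) * gnorm g₀.inner x w ≤
      K * μ ^ n * (gnorm g₀.inner x v * gnorm g₀.inner (f^[n] x) (mfderiv I I f^[n] x w))
  contracted : ∃ K μ : ℝ, 0 < K ∧ 0 < μ ∧ μ < 1 ∧ ∀ x ∈ Λ, ∀ n : ℕ, ∀ v ∈ Es x,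
    gnorm g₀.inner (f^[n] x) (mfderiv I I f^[n] x v) ≤ K * μ ^ n * gnorm g₀.inner x v
  expanding : ∃ C lam : ℝ, 0 < C ∧ 0 < lam ∧ ∀ x ∈ Λ, ∀ n : ℕ, 1 ≤ n →
    ∀ v : Fin k → TangentSpace I x, (∀ i, v i ∈ Fs x) →
      C * Real.exp (lam * n) * gvol g₀.inner x v ≤
        gvol g₀.inner (f^[n] x) (fun i => mfderiv I I f^[n] x (v i))

variable [FiniteDimensional ℝ E]

lemma sys {g₀ : ContMDiffRiemannianMetric I ∞ E (fun x : M => TangentSpace I x)}
    {f : M ≃ₘ^1⟮I, I⟯ M} {Λ : Set M} {Es Fs : ∀ x : M, Submodule ℝ (TangentSpace I x)} {k : ℕ}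
    (h : IsVolumeExpandingSet g₀ f Λ Es Fs k) : Sys Λ Es Fs f := by
  refine ⟨f.contMDiff, fun x hx => ?_, fun x _ => ?_, fun x hx v hv => ?_, fun x hx v hv => ?_⟩
  · rw [← h.invariant]; exact mem_image_of_mem f hx
  · have hd : MDifferentiableAt I I f x := (f.contMDiff x).mdifferentiableAt (by simp)
    have hd' : MDifferentiableAt I I f.symm (f x) := (f.symm.contMDiff _).mdifferentiableAt (by simp)
    have e : mfderiv I I (f.symm ∘ f) x = (mfderiv I I f.symm (f x)).comp (mfderiv I I f x) :=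
      mfderiv_comp x hd' hd
    have e2 : (f.symm ∘ f : M → M) = id := by
      funext y; simp
    rw [e2, mfderiv_id] at e
    intro v w hvw
    have h1 : v = (mfderiv I I f.symm (f x)) (mfderiv I I f x v) := by
      have := congrArg (fun L : TangentSpace I x →L[ℝ] TangentSpace I x => L v) e
      exact this
    have h2 : w = (mfderiv I I f.symm (f x)) (mfderiv I I f x w) := by
      have := congrArg (fun L : TangentSpace I x →L[ℝ] TangentSpace I x => L w) e
      exact this
    rw [h1, h2, hvw]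
  · rw [← h.invariant_E x hx]; exact ⟨v, hv, rfl⟩
  · rw [← h.invariant_F x hx]; exact ⟨v, hv, rfl⟩

/-- Every such set admits an adapted metric: there are a smooth Riemannian metric `g` on `M` and `lam > 0`
such that `‖(∧ᵏ Dfⁿ)(v₁ ∧ ⋯ ∧ v_k)‖ ≥ e^(lam n) ‖v₁ ∧ ⋯ ∧ v_k‖` for all `x ∈ Λ`, `n ≥ 1` and
`v₁, ..., v_k` in `F_x`; moreover, in the same metric, `‖Dfⁿ v‖ ≤ e^(-lam n) ‖v‖` for `v ∈ E_x`, and
`‖Dfⁿ v‖ ‖w‖ ≤ e^(-lam n) ‖v‖ ‖Dfⁿ w‖` for `v ∈ E_x` and `w ∈ F_x`. -/
theorem result [T2Space M] [SigmaCompactSpace M]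
    (g₀ : ContMDiffRiemannianMetric I ∞ E (fun x : M => TangentSpace I x))
    (f : M ≃ₘ^1⟮I, I⟯ M) (Λ : Set M) (Es Fs : ∀ x : M, Submodule ℝ (TangentSpace I x)) (k : ℕ)
    (h : IsVolumeExpandingSet g₀ f Λ Es Fs k) :
    ∃ (g : ContMDiffRiemannianMetric I ∞ E (fun x : M => TangentSpace I x)) (lam : ℝ), 0 < lam ∧
      ∀ x ∈ Λ, ∀ n : ℕ, 1 ≤ n →
        (∀ v : Fin k → TangentSpace I x, (∀ i, v i ∈ Fs x) →
          Real.exp (lam * n) * gvol g.inner x v ≤
            gvol g.inner (f^[n] x) (fun i => mfderiv I I f^[n] x (v i))) ∧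
        (∀ v ∈ Es x, gnorm g.inner (f^[n] x) (mfderiv I I f^[n] x v) ≤
          Real.exp (-(lam * n)) * gnorm g.inner x v) ∧
        (∀ v ∈ Es x, ∀ w ∈ Fs x,
          gnorm g.inner (f^[n] x) (mfderiv I I f^[n] x v) * gnorm g.inner x w ≤
            Real.exp (-(lam * n)) * (gnorm g.inner x v *
              gnorm g.inner (f^[n] x) (mfderiv I I f^[n] x w))) := by
  obtain ⟨K, μ, hK, hμ0, hμ1, hdom⟩ := h.dominated
  obtain ⟨K', μ', hK', hμ0', hμ1', hcon⟩ := h.contracted
  obtain ⟨C, lam, hC, hlam, hexp⟩ := h.expanding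
  obtain ⟨g, l, hl, hg⟩ := exists_adapted h.isCompact h.splitting (sys h) g₀ (k := k)
    (a := fun n => K * μ ^ n) (b := fun n => K' * μ' ^ n) (c := fun n => C * Real.exp (lam * n))
    (fun n => by positivity) (fun n => by positivity) (fun n => by positivity)
    (by
      have := (tendsto_pow_atTop_nhds_zero_of_lt_one hμ0.le hμ1).const_mul K
      rwa [mul_zero] at this)
    (by
      have := (tendsto_pow_atTop_nhds_zero_of_lt_one hμ0'.le hμ1').const_mul K'
      rwa [mul_zero] at this)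
    (by
      apply Tendsto.const_mul_atTop hC
      apply Real.tendsto_exp_atTop.comp
      exact Tendsto.const_mul_atTop hlam tendsto_natCast_atTop_atTop)
    (fun x hx n hn => ⟨hdom x hx n, hcon x hx n, hexp x hx n hn⟩)
  refine ⟨g, l, hl, fun x hx n _ => ⟨(hg x hx n).vol, (hg x hx n).con, (hg x hx n).dom⟩⟩

end Pool.Agent.Results.MP_3d2465_an.AdaptedMetric
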